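import Mathlib

/-!
# Project SG (MP_8e29f8_al): the group `T = (5² : SL₂(5)) × 2`

Facts: no element of order `5` normalises a Sylow `3`-subgroup of `T` and no element of order `3` normalises a Sylow
`5`-subgroup of `T`.
-/

set_option autoImplicit false

namespace Pool.Agent.Q157.SG

open Matrix

instance : Fact (Nat.Prime 5) := ⟨by norm_num⟩
instance : Fact (Nat.Prime 3) := ⟨by norm_num⟩

/-- `SL₂(5)`. -/
abbrev U : Type := Matrix.SpecialLinearGroup (Fin 2) (ZMod 5)

theorem two_eq_zero {x : ZMod 5} (h : 2 * x = 0) : x = 0 := by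
  revert h x
  decide

theorem three_eq_zero {x : ZMod 5} (h : 3 * x = 0) : x = 0 := by
  revert h x
  decide

theorem sq_eq_zero {x : ZMod 5} (h : x ^ 2 = 0) : x = 0 := by
  revert h x
  decide

/-- An element of order `3` has trace `-1`. -/
theorem cube (m : U) (h : m ^ 3 = 1) : m = 1 ∨
    ((m.1 0 0 + m.1 1 1 = -1) ∧ m.1 * m.1 + m.1 + 1 = 0) := by
  have hdet : m.1 0 0 * m.1 1 1 - m.1 0 1 * m.1 1 0 = 1 := by
    rw [← Matrix.det_fin_two]
    exact m.2
  have h1 : m.1 * m.1 * m.1 = 1 := by
    have := congrArg (fun x : U => x.1) h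
    simpa [pow_succ] using this
  have h2 : m.1 * m.1 = m.1.adjugate := by
    calc m.1 * m.1 = m.1 * m.1 * (m.1 * m.1.adjugate) := by rw [Matrix.mul_adjugate, m.2, one_smul, mul_one]
      _ = (m.1 * m.1 * m.1) * m.1.adjugate := by simp only [mul_assoc]
      _ = m.1.adjugate := by rw [h1, one_mul]
  have h3 := h2
  rw [Matrix.adjugate_fin_two] at h2
  have e00 := congrFun (congrFun h2 0) 0
  have e01 := congrFun (congrFun h2 0) 1
  have e10 := congrFun (congrFun h2 1) 0
  have e11 := congrFun (congrFun h2 1) 1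
  simp only [Matrix.mul_apply, Fin.sum_univ_two, Matrix.of_apply, Matrix.cons_val', Matrix.cons_val_zero,
    Matrix.cons_val_one, Matrix.cons_val_fin_one, Fin.isValue] at e00 e01 e10 e11
  by_cases ht : m.1 0 0 + m.1 1 1 = -1
  · right
    refine ⟨ht, ?_⟩
    rw [h3, Matrix.adjugate_fin_two]
    ext i j
    fin_cases i <;> fin_cases j <;> simp
    · linear_combination ht
    · linear_combination ht
  · left
    have ht' : m.1 0 0 + m.1 1 1 + 1 ≠ 0 := fun h0 => ht (by linear_combination h0)
    have hb : m.1 0 1 = 0 := by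
      have : m.1 0 1 * (m.1 0 0 + m.1 1 1 + 1) = 0 := by linear_combination e01
      exact (mul_eq_zero.1 this).resolve_right ht'
    have hc : m.1 1 0 = 0 := by
      have : m.1 1 0 * (m.1 0 0 + m.1 1 1 + 1) = 0 := by linear_combination e10
      exact (mul_eq_zero.1 this).resolve_right ht'
    have ha : m.1 0 0 - 1 = 0 := by
      have : (m.1 0 0 - 1) * (m.1 0 0 + m.1 1 1 + 1) = 0 := by linear_combination e00 + hdet
      exact (mul_eq_zero.1 this).resolve_right ht'
    have hd : m.1 1 1 - 1 = 0 := by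
      have : (m.1 1 1 - 1) * (m.1 0 0 + m.1 1 1 + 1) = 0 := by linear_combination e11 + hdet
      exact (mul_eq_zero.1 this).resolve_right ht'
    apply Subtype.ext
    ext i j
    fin_cases i <;> fin_cases j <;> simp
    · linear_combination ha
    · exact hb
    · exact hc
    · linear_combination hd

/-- An element of order `5` is unipotent. -/
theorem fifth (u : U) (h : u ^ 5 = 1) : (u.1 0 0 - 1) + (u.1 1 1 - 1) = 0 ∧
    (u.1 0 0 - 1) * (u.1 1 1 - 1) - u.1 0 1 * u.1 1 0 = 0 ∨ u = 1 := by
  have h1 : u.1 ^ 5 = 1 := by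
    have := congrArg (fun x : U => x.1) h
    simpa using this
  have h2 : (u.1 - 1) ^ 5 = 0 := by
    rw [sub_pow_char_of_commute 5 (Commute.one_right _), h1, one_pow, sub_self]
  obtain ⟨n, hn⟩ : ∃ n, n = u.1 - 1 := ⟨_, rfl⟩
  rw [← hn] at h2
  have h3 : n.det = 0 := by
    have := congrArg Matrix.det h2
    rw [Matrix.det_pow, Matrix.det_zero] at this
    exact pow_eq_zero_iff (by norm_num) |>.1 this
  have h4 : n * n = n.trace • n := by
    rw [Matrix.det_fin_two] at h3
    ext i j
    fin_cases i <;> fin_cases j <;>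
      simp [Matrix.mul_apply, Fin.sum_univ_two, Matrix.trace_fin_two]
    · linear_combination -h3
    · ring
    · ring
    · linear_combination -h3
  have h6 : n ^ 5 = n.trace ^ 4 • n := by
    calc n ^ 5 = n * n * n * n * n := by simp [pow_succ]
      _ = n.trace ^ 4 • n := by
        rw [h4, Matrix.smul_mul, h4, smul_smul, Matrix.smul_mul, h4, smul_smul, Matrix.smul_mul, h4, smul_smul]
        ring_nf
  rw [h6] at h2
  rcases smul_eq_zero.1 h2 with h7 | h7
  · left
    have h8 : n.trace = 0 := pow_eq_zero_iff (by norm_num) |>.1 h7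
    rw [Matrix.trace_fin_two] at h8
    rw [Matrix.det_fin_two] at h3
    rw [hn] at h3 h8
    simp only [Matrix.sub_apply, Matrix.one_apply_eq, Fin.isValue, ne_eq, zero_ne_one, not_false_eq_true,
      Matrix.one_apply_ne, sub_zero, one_ne_zero] at h3 h8
    exact ⟨h8, h3⟩
  · right
    rw [hn, sub_eq_zero] at h7
    exact Subtype.ext h7

/-- No commuting elements of orders `3` and `5` in `SL₂(5)`. -/
theorem comm_U (m u : U) (hm : m ^ 3 = 1) (hu : u ^ 5 = 1) (hc : m * u = u * m) : m = 1 ∨ u = 1 := by
  rcases cube m hm with h | ⟨htr, -⟩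
  · exact Or.inl h
  right
  rcases fifth u hu with ⟨hu1, hu2⟩ | h
  · have hdet : m.1 0 0 * m.1 1 1 - m.1 0 1 * m.1 1 0 = 1 := by
      rw [← Matrix.det_fin_two]
      exact m.2
    have hc' : m.1 * u.1 = u.1 * m.1 := by
      have := congrArg (fun x : U => x.1) hc
      simpa using this
    have e00 := congrFun (congrFun hc' 0) 0
    have e01 := congrFun (congrFun hc' 0) 1
    have e10 := congrFun (congrFun hc' 1) 0
    simp only [Matrix.mul_apply, Fin.sum_univ_two, Fin.isValue] at e00 e01 e10
    -- `e = u00 - 1`, `f = u01`, `g = u10`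
    have hd : u.1 1 1 - 1 = -(u.1 0 0 - 1) := by linear_combination hu1
    have hef : (u.1 0 0 - 1) ^ 2 + u.1 0 1 * u.1 1 0 = 0 := by
      linear_combination -hu2 + (u.1 0 0 - 1) * hu1
    have hf : u.1 0 1 * (m.1 0 0 - m.1 1 1) = 2 * (u.1 0 0 - 1) * m.1 0 1 := by
      linear_combination e01 + m.1 0 1 * (-1) * hd
    have hg : u.1 1 0 * (m.1 0 0 - m.1 1 1) = 2 * (u.1 0 0 - 1) * m.1 1 0 := by
      linear_combination -e10 - m.1 1 0 * hd
    have hbg : m.1 0 1 * u.1 1 0 = u.1 0 1 * m.1 1 0 := by linear_combination e00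
    have hdisc : (m.1 0 0 - m.1 1 1) ^ 2 + 4 * (m.1 0 1 * m.1 1 0) = 2 := by
      have h5 : (5 : ZMod 5) = 0 := by decide
      linear_combination (m.1 0 0 + m.1 1 1 - 1) * htr - 4 * hdet - h5
    have k1 : 2 * (u.1 0 1) ^ 2 = 0 := by
      linear_combination -(u.1 0 1) ^ 2 * hdisc +
        (u.1 0 1 * (m.1 0 0 - m.1 1 1) + 2 * (u.1 0 0 - 1) * m.1 0 1) * hf
        - 4 * m.1 0 1 * u.1 0 1 * hbg + 4 * (m.1 0 1) ^ 2 * hef
    have k2 : 2 * (u.1 1 0) ^ 2 = 0 := by
      linear_combination -(u.1 1 0) ^ 2 * hdisc +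
        (u.1 1 0 * (m.1 0 0 - m.1 1 1) + 2 * (u.1 0 0 - 1) * m.1 1 0) * hg
        + 4 * m.1 1 0 * u.1 1 0 * hbg + 4 * (m.1 1 0) ^ 2 * hef
    have f0 := sq_eq_zero (two_eq_zero k1)
    have g0 := sq_eq_zero (two_eq_zero k2)
    have a0 : u.1 0 0 - 1 = 0 := by
      apply sq_eq_zero
      rw [f0] at hef
      linear_combination hef
    apply Subtype.ext
    ext i j
    fin_cases i <;> fin_cases j <;> simp
    · linear_combination a0
    · exact f0
    · exact g0
    · linear_combination hd - a0
  · exact h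

/-- The number of elements of `SL₂(5)`. -/
theorem card_U : Nat.card U = 120 := by
  have e : U ≃ {x : ZMod 5 × ZMod 5 × ZMod 5 × ZMod 5 // x.1 * x.2.2.2 - x.2.1 * x.2.2.1 = 1} :=
    { toFun := fun m => ⟨(m.1 0 0, m.1 0 1, m.1 1 0, m.1 1 1), by
        show m.1 0 0 * m.1 1 1 - m.1 0 1 * m.1 1 0 = 1
        rw [← Matrix.det_fin_two]
        exact m.2⟩
      invFun := fun x => ⟨!![x.1.1, x.1.2.1; x.1.2.2.1, x.1.2.2.2], by
        rw [Matrix.det_fin_two_of]
        exact x.2⟩
      left_inv := by
        intro m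
        apply Subtype.ext
        exact (Matrix.eta_fin_two m.1).symm
      right_inv := by
        intro x
        apply Subtype.ext
        simp }
  rw [Nat.card_congr e, Nat.card_eq_fintype_card]
  decide +kernel

/-- The module `5²`, written multiplicatively. -/
abbrev W : Type := Multiplicative (Fin 2 → ZMod 5)

theorem card_W : Nat.card W = 25 := by
  rw [Nat.card_congr Multiplicative.toAdd, Nat.card_pi]
  simp

/-- The action of `SL₂(5)` on `5²`. -/
def φ : U →* MulAut W where
  toFun m :=
    { toFun := fun w => Multiplicative.ofAdd (m.1.mulVec (Multiplicative.toAdd w))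
      invFun := fun w => Multiplicative.ofAdd ((m⁻¹).1.mulVec (Multiplicative.toAdd w))
      left_inv := by
        intro w
        show Multiplicative.ofAdd ((m⁻¹).1.mulVec (m.1.mulVec (Multiplicative.toAdd w))) = w
        rw [Matrix.mulVec_mulVec, ← Matrix.SpecialLinearGroup.coe_mul, inv_mul_cancel,
          Matrix.SpecialLinearGroup.coe_one, Matrix.one_mulVec]
        rfl
      right_inv := by
        intro w
        show Multiplicative.ofAdd (m.1.mulVec ((m⁻¹).1.mulVec (Multiplicative.toAdd w))) = w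
        rw [Matrix.mulVec_mulVec, ← Matrix.SpecialLinearGroup.coe_mul, mul_inv_cancel,
          Matrix.SpecialLinearGroup.coe_one, Matrix.one_mulVec]
        rfl
      map_mul' := by
        intro v w
        show Multiplicative.ofAdd (m.1.mulVec (Multiplicative.toAdd v + Multiplicative.toAdd w)) = _
        rw [Matrix.mulVec_add]
        rfl }
  map_one' := by
    ext1 w
    show Multiplicative.ofAdd ((1 : U).1.mulVec (Multiplicative.toAdd w)) = w
    rw [Matrix.SpecialLinearGroup.coe_one, Matrix.one_mulVec]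
    rfl
  map_mul' := by
    intro m n
    ext1 w
    show Multiplicative.ofAdd ((m * n).1.mulVec (Multiplicative.toAdd w)) =
      Multiplicative.ofAdd (m.1.mulVec (n.1.mulVec (Multiplicative.toAdd w)))
    rw [Matrix.mulVec_mulVec, Matrix.SpecialLinearGroup.coe_mul]

/-- The group `5² : SL₂(5)`. -/
abbrev T0 : Type := W ⋊[φ] U

instance : Finite W := inferInstanceAs (Finite (Fin 2 → ZMod 5))

instance : Finite T0 := Finite.of_equiv _ SemidirectProduct.equivProd.symm

theorem card_T0 : Nat.card T0 = 3000 := by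
  rw [SemidirectProduct.card, card_W, card_U]

theorem W_pow (w : W) : w ^ 5 = 1 := by
  show Multiplicative.ofAdd (5 • Multiplicative.toAdd w) = 1
  have : (5 : ℕ) • Multiplicative.toAdd w = 0 := by
    funext i
    show (5 : ℕ) • Multiplicative.toAdd w i = 0
    generalize Multiplicative.toAdd w i = x
    revert x
    decide
  rw [this]
  rfl

theorem eq_one_of_pow {G : Type} [Group G] (g : G) (a b : ℕ) (hab : Nat.Coprime a b) (h1 : g ^ a = 1)
    (h2 : g ^ b = 1) : g = 1 := by
  rw [← orderOf_eq_one_iff]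
  have h3 := orderOf_dvd_of_pow_eq_one h1
  have h4 := orderOf_dvd_of_pow_eq_one h2
  have h5 := Nat.dvd_gcd h3 h4
  rw [hab] at h5
  exact Nat.dvd_one.1 h5

/-- No commuting elements of orders `3` and `5` in `T0`. -/
theorem comm_T0 (s t : T0) (hs : s ^ 3 = 1) (ht : t ^ 5 = 1) (hc : s * t = t * s) : s = 1 ∨ t = 1 := by
  have hs' : s.right ^ 3 = 1 := by
    have : (SemidirectProduct.rightHom s) ^ 3 = 1 := by rw [← map_pow, hs, map_one]
    exact this
  have ht' : t.right ^ 5 = 1 := by
    have : (SemidirectProduct.rightHom t) ^ 5 = 1 := by rw [← map_pow, ht, map_one]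
    exact this
  have hc' : s.right * t.right = t.right * s.right := by
    have := congrArg (SemidirectProduct.rightHom : T0 →* U) hc
    simpa using this
  rcases comm_U _ _ hs' ht' hc' with h | h
  · left
    have h1 : s = SemidirectProduct.inl s.left := by
      ext1
      · simp
      · simpa using h
    apply eq_one_of_pow s 3 5 (by norm_num) hs
    rw [h1, ← map_pow, W_pow, map_one]
  · rcases cube s.right hs' with h3 | ⟨-, h3⟩
    · left
      have h1 : s = SemidirectProduct.inl s.left := by
        ext1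
        · simp
        · simpa using h3
      apply eq_one_of_pow s 3 5 (by norm_num) hs
      rw [h1, ← map_pow, W_pow, map_one]
    · right
      have h4 := congrArg SemidirectProduct.left hc
      rw [SemidirectProduct.mul_left, SemidirectProduct.mul_left, h, map_one] at h4
      have h5 : φ s.right t.left = t.left := by
        have : s.left * φ s.right t.left = s.left * t.left := by
          rw [h4, MulAut.one_apply, mul_comm]
        exact mul_left_cancel this
      have h6 : s.right.1.mulVec (Multiplicative.toAdd t.left) = Multiplicative.toAdd t.left := h5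
      have h7 := congrArg (fun M : Matrix (Fin 2) (Fin 2) (ZMod 5) => M.mulVec (Multiplicative.toAdd t.left)) h3
      simp only [Matrix.add_mulVec, ← Matrix.mulVec_mulVec, h6, Matrix.one_mulVec, Matrix.zero_mulVec] at h7
      have h8 : Multiplicative.toAdd t.left = 0 := by
        funext i
        have h9 : Multiplicative.toAdd t.left i + Multiplicative.toAdd t.left i +
            Multiplicative.toAdd t.left i = 0 := congrFun h7 i
        apply three_eq_zero
        linear_combination h9
      ext1
      · exact h8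
      · exact h

/-- The group `T = (5² : SL₂(5)) × 2`. -/
abbrev T : Type := T0 × Multiplicative (ZMod 2)

theorem C2_sq (c : Multiplicative (ZMod 2)) : c ^ 2 = 1 := by
  revert c
  decide

theorem card_T : Nat.card T = 6000 := by
  rw [Nat.card_prod, card_T0, Nat.card_congr Multiplicative.toAdd, Nat.card_zmod]

theorem comm_T (s t : T) (hs : s ^ 3 = 1) (ht : t ^ 5 = 1) (hc : s * t = t * s) : s = 1 ∨ t = 1 := by
  have h1 : s.2 = 1 := eq_one_of_pow s.2 3 2 (by norm_num) (congrArg Prod.snd hs) (C2_sq _)
  have h2 : t.2 = 1 := eq_one_of_pow t.2 5 2 (by norm_num) (congrArg Prod.snd ht) (C2_sq _)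
  rcases comm_T0 s.1 t.1 (congrArg Prod.fst hs) (congrArg Prod.fst ht) (congrArg Prod.fst hc) with h | h
  · exact Or.inl (Prod.ext h h1)
  · exact Or.inr (Prod.ext h h2)

/-- An element of prime order `ℓ` normalising a group of order `r ≢ 1 mod ℓ` centralises an element `≠ 1` of it. -/
theorem fix {G : Type} [Group G] [Finite G] (P : Subgroup G) (ℓ : ℕ) [Fact ℓ.Prime] (t : G)
    (ht : t ∈ Subgroup.normalizer (P : Set G)) (htl : t ^ ℓ = 1) (hr : ¬ Nat.card P ≡ 1 [MOD ℓ]) :
    ∃ s ∈ P, s ≠ 1 ∧ s * t = t * s := by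
  classical
  by_contra hcon
  push Not at hcon
  have : Fintype P := Fintype.ofFinite P
  have hmem : ∀ s : P, t * s * t⁻¹ ∈ P := fun s => ((Subgroup.mem_normalizer_iff.1 ht) s).1 s.2
  let f : Function.End P := fun s => ⟨t * s * t⁻¹, hmem s⟩
  have hpow : ∀ n : ℕ, ∀ s : P, (((f ^ n : Function.End P) s : P) : G) = t ^ n * s * (t ^ n)⁻¹ := by
    intro n
    induction n with
    | zero =>
      intro s
      simp only [pow_zero, one_mul, inv_one, mul_one]
      rfl
    | succ n ih =>
      intro s
      rw [pow_succ']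
      show (((f ((f ^ n : Function.End P) s)) : P) : G) = _
      show t * (((f ^ n : Function.End P) s : P) : G) * t⁻¹ = _
      rw [ih, pow_succ']
      group
  have hf : f ^ ℓ ^ 1 = 1 := by
    funext s
    apply Subtype.ext
    rw [pow_one, hpow, htl, one_mul, inv_one, mul_one]
    rfl
  have h1 := Equiv.Perm.card_fixedPoints_modEq (f := f) (p := ℓ) (n := 1) hf
  have h2 : Fintype.card (Function.fixedPoints f) = 1 := by
    rw [Fintype.card_eq_one_iff]
    refine ⟨⟨1, ?_⟩, ?_⟩
    · show f 1 = 1
      apply Subtype.ext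
      simp [f]
    · rintro ⟨s, hs⟩
      apply Subtype.ext
      by_contra hne
      apply hcon (s : G) s.2 (fun h => hne (Subtype.ext h))
      have h3 : t * s * t⁻¹ = s := congrArg Subtype.val (show f s = s from hs)
      rw [mul_inv_eq_iff_eq_mul] at h3
      exact h3.symm
  rw [h2, ← Nat.card_eq_fintype_card] at h1
  exact hr h1

theorem sylow_T (P : Sylow 3 T) : Nat.card P = 3 := by
  rw [P.card_eq_multiplicity, card_T]
  have : (6000 : ℕ).factorization 3 = 1 := by
    rw [show (6000 : ℕ) = 3 ^ 1 * 2000 from rfl, Nat.factorization_mul (by norm_num) (by norm_num),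
      Nat.Prime.factorization_pow (by norm_num)]
    simp [Nat.factorization_eq_zero_of_not_dvd (show ¬ 3 ∣ 2000 by norm_num)]
  rw [this, pow_one]

theorem sylow_U (P : Sylow 5 U) : Nat.card P = 5 := by
  rw [P.card_eq_multiplicity, card_U]
  have : (120 : ℕ).factorization 5 = 1 := by
    rw [show (120 : ℕ) = 5 ^ 1 * 24 from rfl, Nat.factorization_mul (by norm_num) (by norm_num),
      Nat.Prime.factorization_pow (by norm_num)]
    simp [Nat.factorization_eq_zero_of_not_dvd (show ¬ 5 ∣ 24 by norm_num)]
  rw [this, pow_one]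

/-- No element of order `5` normalises a Sylow `3`-subgroup of `T`. -/
theorem norm_three (P : Sylow 3 T) (t : T) (ht : t ∈ Subgroup.normalizer ((P : Subgroup T) : Set T))
    (h5 : t ^ 5 = 1) : t = 1 := by
  have hcard := sylow_T P
  obtain ⟨s, hs, hs1, hc⟩ := fix (P : Subgroup T) 5 t ht h5 (by
    rw [show Nat.card (P : Subgroup T) = 3 from hcard]
    decide)
  have h3 : s ^ 3 = 1 := by
    have := pow_card_eq_one' (x := (⟨s, hs⟩ : (P : Subgroup T)))
    rw [show Nat.card (P : Subgroup T) = 3 from hcard] at this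
    exact congrArg Subtype.val this
  exact (comm_T s t h3 h5 hc).resolve_left hs1

/-- The projection of `T` to `SL₂(5)`. -/
def ρ : T →* U := SemidirectProduct.rightHom.comp (MonoidHom.fst T0 (Multiplicative (ZMod 2)))

theorem ρ_surj : Function.Surjective ρ := fun u => ⟨(SemidirectProduct.inr u, 1), rfl⟩

/-- No element of order `3` normalises a Sylow `5`-subgroup of `T`. -/
theorem norm_five (Q : Sylow 5 T) (t : T) (ht : t ∈ Subgroup.normalizer ((Q : Subgroup T) : Set T))
    (h3 : t ^ 3 = 1) : t = 1 := by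
  let Q' : Sylow 5 U := Q.mapSurjective ρ_surj
  have hQ' : (Q' : Subgroup U) = (Q : Subgroup T).map ρ := Sylow.coe_mapSurjective ρ_surj Q
  have hcard := sylow_U Q'
  have hρ3 : (ρ t) ^ 3 = 1 := by rw [← map_pow, h3, map_one]
  obtain ⟨u, hu, hu1, hc⟩ := fix (Q' : Subgroup U) 3 (ρ t) (by
    rw [hQ']
    exact Subgroup.le_normalizer_map ρ (Subgroup.mem_map_of_mem ρ ht)) hρ3 (by
    rw [show Nat.card (Q' : Subgroup U) = 5 from hcard]
    decide)
  have h5 : u ^ 5 = 1 := by
    have := pow_card_eq_one' (x := (⟨u, hu⟩ : (Q' : Subgroup U)))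
    rw [show Nat.card (Q' : Subgroup U) = 5 from hcard] at this
    exact congrArg Subtype.val this
  have h1 : ρ t = 1 := (comm_U (ρ t) u hρ3 h5 hc.symm).resolve_right hu1
  have h2 : t.2 = 1 := eq_one_of_pow t.2 3 2 (by norm_num) (congrArg Prod.snd h3) (C2_sq _)
  have h4 : t.1 = 1 := by
    have h6 : t.1 = SemidirectProduct.inl t.1.left := by
      ext1
      · simp
      · exact h1
    apply eq_one_of_pow t.1 3 5 (by norm_num) (congrArg Prod.fst h3)
    rw [h6, ← map_pow, W_pow, map_one]
  exact Prod.ext h4 h2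

end Pool.Agent.Q157.SG
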